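import Mathlib
import Pool.Agent.H3.CenDefs
import Pool.Agent.H3.CenC0
import Pool.Agent.H3.CenC1
import Pool.Agent.H3.CenC2
import Pool.Agent.H3.CenC3

open MeasureTheory Set

namespace Pool.Agent.Results.MP_be4961_gt.Three

open Pool.Agent.H3.Cen

theorem good_all (u : E3) (hx : 0 ≤ u 0) : Good u := by
  rcases le_total 0 (u 1) with h1 | h1 <;> rcases le_total 0 (u 2) with h2 | h2
  · convert oct0 (u 0) (u 1) (u 2) hx h1 h2 using 1
    ext i; fin_cases i <;> simp [toE]
  · convert oct1 (u 0) (u 1) (-u 2) hx h1 (by linarith) using 1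
    ext i; fin_cases i <;> simp [toE]
  · convert oct3 (u 0) (-u 1) (u 2) hx (by linarith) h2 using 1
    ext i; fin_cases i <;> simp [toE]
  · convert oct2 (u 0) (-u 1) (-u 2) hx (by linarith) (by linarith) using 1
    ext i; fin_cases i <;> simp [toE]

theorem normal (H : AffineSubspace ℝ E3) (h2 : Module.finrank ℝ H.direction = 2)
    (h0 : (0 : E3) ∈ H) : ∃ u : E3, u ≠ 0 ∧ (H : Set E3) = {x | dot u x = 0} := by
  haveI : Fact (Module.finrank ℝ E3 = 2 + 1) := ⟨by simp⟩
  have h1 : Module.finrank ℝ H.directionᗮ = 1 := by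
    have := H.direction.finrank_add_finrank_orthogonal
    rw [h2, finrank_euclideanSpace_fin] at this
    omega
  obtain ⟨u, hu, hu0⟩ := Submodule.exists_mem_ne_zero_of_ne_bot
    (p := H.directionᗮ) (by intro h; rw [h] at h1; simp at h1)
  have hle : H.direction ≤ (ℝ ∙ u)ᗮ := by
    intro x hx
    rw [Submodule.mem_orthogonal_singleton_iff_inner_left]
    exact (Submodule.mem_orthogonal _ _).mp hu x hx
  have heq : H.direction = (ℝ ∙ u)ᗮ :=
    Submodule.eq_of_le_of_finrank_eq hle (by rw [h2, Submodule.finrank_orthogonal_span_singleton (n := 2) hu0])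
  refine ⟨u, hu0, ?_⟩
  ext x
  rw [SetLike.mem_coe, ← AffineSubspace.vsub_right_mem_direction_iff_mem h0, heq,
    Submodule.mem_orthogonal_singleton_iff_inner_right, inner_eq_dot]
  simp

theorem neg_set (u : E3) : {x | dot (-u) x = 0} = {x | dot u x = 0} := by
  ext x; simp [dot_neg]

def SS (k : Fin 3) : Set (AffineSubspace ℝ E3) :=
  {H | ∃ u, InArc k u ∧ Z u ∧ (H : Set E3) = {x | dot u x = 0}}

theorem SS_sub (k : Fin 3) : (SS k).encard ≤ 1 := by
  rw [Set.encard_le_one_iff_subsingleton]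
  rintro H ⟨u, h1, h2, h3⟩ H' ⟨u', k1, k2, k3⟩
  obtain ⟨t, ht, rfl⟩ := arc_uniq h1 k1 h2 k2
  apply SetLike.coe_injective
  rw [h3, k3]
  ext x
  have : dot (t • u) x = t * dot u x := by simp [dot]; ring
  simp [this, ht]

theorem sub_SS {H : AffineSubspace ℝ E3} (h : Centroidal K H) : ∃ k, H ∈ SS k := by
  obtain ⟨h2, h0, hc⟩ := h
  rw [centroid_K] at h0 hc
  obtain ⟨u, hu, hH⟩ := normal H h2 h0
  have key : ∀ u : E3, u ≠ 0 → (H : Set E3) = {x | dot u x = 0} → 0 ≤ u 0 → ∃ k, H ∈ SS k := by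
    intro u hu hH hx
    have hZ : Z u := by unfold Z; rw [← hH]; exact hc
    rcases good_all u hx hZ with h | ⟨k, h | h⟩
    · exact absurd h hu
    · exact ⟨k, u, h, hZ, hH⟩
    · exact ⟨k, -u, h, by unfold Z; rw [neg_set]; exact hZ, by rw [neg_set, hH]⟩
  rcases le_total 0 (u 0) with hx | hx
  · exact key u hu hH hx
  · exact key (-u) (neg_ne_zero.mpr hu) (by rw [neg_set, hH]) (by simpa using hx)

/-- There is a convex body in `ℝ³` with at most three centroidal planes. -/
theorem result : ∃ K : Set E3, IsCompact K ∧ Convex ℝ K ∧ (interior K).Nonempty ∧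
    {H : AffineSubspace ℝ E3 | Centroidal K H}.encard ≤ 3 := by
  refine ⟨K, K_compact, K_convex, K_int, ?_⟩
  have hsub : {H : AffineSubspace ℝ E3 | Centroidal K H} ⊆ SS 0 ∪ SS 1 ∪ SS 2 := by
    intro H h
    obtain ⟨k, hk⟩ := sub_SS h
    fin_cases k
    · exact Or.inl (Or.inl hk)
    · exact Or.inl (Or.inr hk)
    · exact Or.inr hk
  calc _ ≤ (SS 0 ∪ SS 1 ∪ SS 2).encard := encard_le_encard hsub
    _ ≤ (SS 0).encard + (SS 1).encard + (SS 2).encard :=
      (encard_union_le _ _).trans (add_le_add (encard_union_le _ _) le_rfl)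
    _ ≤ 1 + 1 + 1 := add_le_add (add_le_add (SS_sub 0) (SS_sub 1)) (SS_sub 2)
    _ = 3 := by norm_num

end Pool.Agent.Results.MP_be4961_gt.Three
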